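import Pool.Agent.S09184

/-!
# MP_633b85_co: a represented 2-polymatroid with cover number 3 and fractional cover number 11/6

Own statement beside the proof of the frozen statement `S09184`, with the definitions of the problem
file. There is a 2-polymatroid `f` on a set `S` of eleven elements, with `f {e} = 2` for all `e`, which
has a matroid representation `M` on `S × {1, 2}` without a circuit that contains both copies of an
element, such that the least number of matchings of `f` with union `S` is `3` and the least total weight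
of a fractional cover by matchings is `11/6`. So `β(f) = 3 > 11/6 + 1 = β*(f) + 1`.

`M` is the direct sum of the cycle matroids of two graphs with seven vertices and the same eleven edges;
the matchings of `f` are the sets of edges that are forests in both graphs.
-/

set_option autoImplicit false

namespace Pool.Agent.Results.MP_633b85_co.CoverByThree

/-- `f` is a 2-polymatroid on the finite set `S`. -/
structure TwoPolymatroid {S : Type} [DecidableEq S] (f : Finset S → ℕ) : Prop where
  empty : f ∅ = 0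
  mono : ∀ A B : Finset S, A ⊆ B → f A ≤ f B
  submodular : ∀ A B : Finset S, f (A ∪ B) + f (A ∩ B) ≤ f A + f B
  singleton_le : ∀ e : S, f {e} ≤ 2

/-- The matroid `M` with the ground set `S × {1, 2}` represents `f`: `f A` is the rank of
`A × {1, 2}`. -/
def Represents {S : Type} (M : Matroid (S × Fin 2)) (f : Finset S → ℕ) : Prop :=
  M.E = Set.univ ∧ ∀ A : Finset S, M.eRk ((A : Set S) ×ˢ (Set.univ : Set (Fin 2))) = (f A : ℕ∞)

/-- `A` is a matching of `f`: `f A = 2 |A|`. -/
def IsMatching {S : Type} (f : Finset S → ℕ) (A : Finset S) : Prop := f A = 2 * A.card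

/-- The numbers `k` such that `S` is the union of `k` matchings of `f`. -/
def CoverNumbers {S : Type} (f : Finset S → ℕ) : Set ℕ :=
  {k | ∃ c : Fin k → Finset S, (∀ i, IsMatching f (c i)) ∧ ∀ e : S, ∃ i, e ∈ c i}

/-- The total weights of the fractional covers of `S` by matchings of `f`, that is, of the families of
reals `w A ≥ 0`, zero unless `A` is a matching, such that for every `e` the sum of the `w A` over the
`A` that contain `e` is at least `1`. -/
def FractionalCoverWeights {S : Type} [Fintype S] [DecidableEq S] (f : Finset S → ℕ) : Set ℝ :=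
  {t | ∃ w : Finset S → ℝ, (∀ A, 0 ≤ w A) ∧ (∀ A, ¬ IsMatching f A → w A = 0) ∧
    (∀ e : S, 1 ≤ ∑ A ∈ Finset.univ.filter (fun A : Finset S => e ∈ A), w A) ∧ t = ∑ A, w A}

open Pool.Agent.S09184 Pool.Agent.Lib_helper54

/-- the 2-polymatroid -/
noncomputable def ff (A : Finset (Fin 11)) : ℕ :=
  (M.eRk ((A : Set (Fin 11)) ×ˢ (Set.univ : Set (Fin 2)))).toNat

theorem eRk_ff (A : Finset (Fin 11)) :
    M.eRk ((A : Set (Fin 11)) ×ˢ (Set.univ : Set (Fin 2))) = (ff A : ℕ∞) := by
  unfold ff
  rw [ENat.natCast_toNat]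
  exact ((M.eRk_le_encard _).trans_lt
    (Set.encard_lt_top_iff.2 (Set.toFinite _))).ne

theorem matching_iff (A : Finset (Fin 11)) :
    IsMatching ff A ↔ M.eRk ((A : Set (Fin 11)) ×ˢ (Set.univ : Set (Fin 2)))
      = ((2 * A.card : ℕ) : ℕ∞) := by
  rw [eRk_ff, IsMatching, ENat.natCast_inj]

theorem matching_indep (X : Finset (Fin 11)) (hX : IsMatching ff X) :
    LinearIndepOn (ZMod 2) vec ((↑X : Set (Fin 11)) ×ˢ (Set.univ : Set (Fin 2))) := by
  have hind : M.Indep ((↑X : Set (Fin 11)) ×ˢ (Set.univ : Set (Fin 2))) := by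
    rw [Matroid.indep_iff_eRk_eq_encard_of_finite (Set.toFinite _), (matching_iff X).1 hX,
      encard_prod]
  simpa [M] using hind

theorem edge_sum (j : Fin 2) (e : Fin 11) : ∑ u, edge j e u = 0 := by
  revert j e
  decide +kernel

/-- Matchings have at most six elements: in both graphs they are forests on seven vertices. -/
theorem card_le_six (X : Finset (Fin 11)) (hX : IsMatching ff X) : X.card ≤ 6 := by
  by_contra hcon
  have h7 : 7 ≤ X.card := by omega
  have hind := matching_indep X hX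
  have hset : ((↑X : Set (Fin 11)) ×ˢ (Set.univ : Set (Fin 2)))
      = ↑(X ×ˢ (Finset.univ : Finset (Fin 2))) := by
    ext; simp
  rw [hset] at hind
  have hcard : Fintype.card ((↑(X ×ˢ (Finset.univ : Finset (Fin 2))) : Set (Fin 11 × Fin 2)))
      = 2 * X.card := by
    simp [mul_comm]
  have hfin : Module.finrank (ZMod 2) (Fin 2 → Fin 7 → ZMod 2) = 14 := by
    rw [Module.finrank_pi_fintype]
    simp
  have hle := LinearIndependent.fintype_card_le_finrank hind
  rw [hcard, hfin] at hle
  have hc14 : Fintype.card ((↑(X ×ˢ (Finset.univ : Finset (Fin 2))) : Set (Fin 11 × Fin 2)))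
      = Module.finrank (ZMod 2) (Fin 2 → Fin 7 → ZMod 2) := by
    rw [hcard, hfin]
    omega
  have htop := LinearIndependent.span_eq_top_of_card_eq_finrank' hind hc14
  let φ : (Fin 2 → Fin 7 → ZMod 2) →ₗ[ZMod 2] ZMod 2 :=
    ∑ u : Fin 7, (LinearMap.proj (φ := fun _ : Fin 7 => ZMod 2) u).comp
      (LinearMap.proj (R := ZMod 2) (φ := fun _ : Fin 2 => Fin 7 → ZMod 2) 0)
  have hφ : ∀ p, φ (vec p) = 0 := by
    rintro ⟨x, j⟩
    simp only [φ, vec, LinearMap.sum_apply, LinearMap.comp_apply, LinearMap.proj_apply]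
    by_cases hj : (0 : Fin 2) = j
    · subst hj
      simp only [Pi.single_eq_same]
      exact edge_sum 0 x
    · refine Finset.sum_eq_zero fun u _ => ?_
      rw [Pi.single_eq_of_ne hj]
      rfl
  have hker : Submodule.span (ZMod 2) (Set.range
      (fun p : (↑(X ×ˢ (Finset.univ : Finset (Fin 2))) : Set (Fin 11 × Fin 2)) => vec p))
      ≤ LinearMap.ker φ := by
    rw [Submodule.span_le]
    rintro _ ⟨p, rfl⟩
    exact hφ _
  have hall : ∀ w, φ w = 0 := fun w => by
    have : w ∈ Submodule.span (ZMod 2) (Set.range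
      (fun p : (↑(X ×ˢ (Finset.univ : Finset (Fin 2))) : Set (Fin 11 × Fin 2)) => vec p)) := by
      rw [htop]
      trivial
    exact hker this
  have h1 := hall (Pi.single 0 (Pi.single 0 1))
  revert h1
  simp only [φ, LinearMap.sum_apply, LinearMap.comp_apply, LinearMap.proj_apply, Pi.single_eq_same]
  decide +kernel

theorem A_matching (i : Fin 11) : IsMatching ff (A i) := by
  rw [matching_iff]
  have hind : M.Indep ((↑(A i) : Set (Fin 11)) ×ˢ (Set.univ : Set (Fin 2))) := by
    simpa [M] using A_indep i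
  rw [hind.eRk_eq_encard, encard_prod]

theorem poly : TwoPolymatroid ff := by
  have hle : ∀ X Y : Finset (Fin 11), ff X ≤ ff Y ↔
      M.eRk ((X : Set (Fin 11)) ×ˢ (Set.univ : Set (Fin 2))) ≤
        M.eRk ((Y : Set (Fin 11)) ×ˢ (Set.univ : Set (Fin 2))) := by
    intro X Y
    rw [eRk_ff, eRk_ff, ENat.natCast_le_natCast]
  refine ⟨?_, ?_, ?_, ?_⟩
  · unfold ff
    simp
  · intro X Y hXY
    rw [hle]
    exact M.eRk_mono (Set.prod_mono (Finset.coe_subset.2 hXY) subset_rfl)
  · intro X Y
    have h := M.eRk_inter_add_eRk_union_le ((X : Set (Fin 11)) ×ˢ (Set.univ : Set (Fin 2)))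
      ((Y : Set (Fin 11)) ×ˢ (Set.univ : Set (Fin 2)))
    rw [← Set.inter_prod, ← Set.union_prod, ← Finset.coe_inter, ← Finset.coe_union, eRk_ff, eRk_ff,
      eRk_ff, eRk_ff] at h
    have h2 : ff (X ∩ Y) + ff (X ∪ Y) ≤ ff X + ff Y := by exact_mod_cast h
    omega
  · intro e
    have h := M.eRk_le_encard (((({e} : Finset (Fin 11)) : Set (Fin 11))) ×ˢ (Set.univ : Set (Fin 2)))
    rw [eRk_ff, encard_prod, ENat.natCast_le_natCast] at h
    simpa using h

theorem singleton_two (e : Fin 11) : ff {e} = 2 := by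
  have hcov : ∀ e : Fin 11, ∃ i, e ∈ A i := by decide +kernel
  obtain ⟨i, hi⟩ := hcov e
  have hind : M.Indep ((↑(A i) : Set (Fin 11)) ×ˢ (Set.univ : Set (Fin 2))) := by
    simpa [M] using A_indep i
  have hind2 : M.Indep ((↑({e} : Finset (Fin 11)) : Set (Fin 11)) ×ˢ (Set.univ : Set (Fin 2))) :=
    hind.subset (Set.prod_mono (Finset.coe_subset.2 (Finset.singleton_subset_iff.2 hi)) subset_rfl)
  have h := hind2.eRk_eq_encard
  rw [eRk_ff, encard_prod, ENat.natCast_inj] at h
  simpa using h

/-- three matchings suffice -/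
theorem three_mem : 3 ∈ CoverNumbers ff := by
  refine ⟨fun i => A (![0, 4, 5] i), fun i => A_matching _, ?_⟩
  decide +kernel

/-- two matchings do not suffice -/
theorem three_le (k : ℕ) (hk : k ∈ CoverNumbers ff) : 3 ≤ k := by
  obtain ⟨c, hc, hcov⟩ := hk
  by_contra hcon
  have hk3 : k < 3 := by omega
  have hc' : ∀ i, M.eRk ((↑(c i) : Set (Fin 11)) ×ˢ (Set.univ : Set (Fin 2)))
      = ((2 * (c i).card : ℕ) : ℕ∞) := fun i => (matching_iff _).1 (hc i)
  obtain ⟨t, ht⟩ := S09184.mono (fun e => decide (∃ i : Fin k, (i : ℕ) = 0 ∧ e ∈ c i))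
  obtain ⟨e0, he0⟩ := (cyc_ok t).2
  rcases ht with ht | ht
  · simp only [decide_eq_true_eq] at ht
    obtain ⟨i0, hi0, _⟩ := ht e0 he0
    refine no_cyc (c i0) t (fun e he => ?_) (hc' i0)
    obtain ⟨i, hi, hei⟩ := ht e he
    have : i = i0 := Fin.ext (hi.trans hi0.symm)
    rwa [← this]
  · simp only [decide_eq_false_iff_not, not_exists, not_and] at ht
    have h1 : ∀ e ∈ (cyc t).2, ∃ i : Fin k, (i : ℕ) = 1 ∧ e ∈ c i := by
      intro e he
      obtain ⟨i, hi⟩ := hcov e
      refine ⟨i, ?_, hi⟩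
      have hne : (i : ℕ) ≠ 0 := fun h0 => ht e he i h0 hi
      have := i.isLt
      omega
    obtain ⟨i1, hi1, _⟩ := h1 e0 he0
    refine no_cyc (c i1) t (fun e he => ?_) (hc' i1)
    obtain ⟨i, hi, hei⟩ := h1 e he
    have : i = i1 := Fin.ext (hi.trans hi1.symm)
    rwa [← this]

theorem frac_mem : (11 / 6 : ℝ) ∈ FractionalCoverWeights ff := by
  refine ⟨wt, fun X => Finset.sum_nonneg fun i _ => by split_ifs <;> norm_num, fun X hX => ?_,
    wt_cover, wt_total.symm⟩
  by_contra hne
  exact hX ((matching_iff X).2 (wt_support X hne))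

theorem frac_le (t : ℝ) (ht : t ∈ FractionalCoverWeights ff) : 11 / 6 ≤ t := by
  obtain ⟨w, hw0, hws, hcov, rfl⟩ := ht
  have h1 : (11 : ℝ) ≤ ∑ e : Fin 11, ∑ X ∈ Finset.univ.filter (fun X : Finset (Fin 11) => e ∈ X),
      w X := by
    calc (11 : ℝ) = ∑ _e : Fin 11, (1 : ℝ) := by simp
      _ ≤ _ := Finset.sum_le_sum fun e _ => hcov e
  have h2 : ∑ e : Fin 11, ∑ X ∈ Finset.univ.filter (fun X : Finset (Fin 11) => e ∈ X), w X
      = ∑ X : Finset (Fin 11), (X.card : ℝ) * w X := by
    simp_rw [Finset.sum_filter]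
    rw [Finset.sum_comm]
    refine Finset.sum_congr rfl fun X _ => ?_
    rw [← Finset.sum_filter, Finset.sum_const, nsmul_eq_mul]
    congr 2
    simp
  have h3 : ∑ X : Finset (Fin 11), (X.card : ℝ) * w X ≤ ∑ X : Finset (Fin 11), 6 * w X := by
    refine Finset.sum_le_sum fun X _ => ?_
    by_cases hX : IsMatching ff X
    · exact mul_le_mul_of_nonneg_right (by exact_mod_cast card_le_six X hX) (hw0 X)
    · rw [hws X hX]
      simp
  rw [← Finset.mul_sum] at h3
  rw [h2] at h1
  linarith

theorem result : ∃ (f : Finset (Fin 11) → ℕ) (M : Matroid (Fin 11 × Fin 2)),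
    TwoPolymatroid f ∧ (∀ e, f {e} = 2) ∧ Represents M f ∧
    (∀ C : Set (Fin 11 × Fin 2), M.IsCircuit C → ∀ e, ¬ ((e, 0) ∈ C ∧ (e, 1) ∈ C)) ∧
    IsLeast (CoverNumbers f) 3 ∧ IsLeast (FractionalCoverWeights f) (11 / 6) :=
  ⟨ff, M, poly, singleton_two, ⟨rfl, eRk_ff⟩, circ_ok, ⟨three_mem, fun k hk => three_le k hk⟩,
    ⟨frac_mem, fun t ht => frac_le t ht⟩⟩

end Pool.Agent.Results.MP_633b85_co.CoverByThree
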